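import Pool.Agent.R460.GH.Appl

/-!
# Goldbach representations `N = p + r` with a small prime `p > √N`, in the residue classes of EVERY modulus

For every modulus `q ≤ x ^ (2 / 3 - ρ)`, without any exceptional moduli, and every residue class `a` modulo `q`
with `gcd(a, q) ≤ (log x)^T`, all but at most `x / (q (log x)^A)` of the even integers `N ≤ x`, `N ≡ a (mod q)`,
have in every interval `(u, v]` with `√N ≤ u`, `v ≤ N` and `v - u ≥ N / (log N)^W` the number of primes `p`, with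
`N - p` prime, which Hardy and Littlewood predict, up to the factor `1 ± ε`. In particular there is a prime `p` with
`√N < p ≤ √N + N / (log N)^W` such that `N - p` is a prime (different from `p`).

Definition used (in `Pool.Agent.H560R3.GB`): `sing N = 2 C₂ ∏_{p ∣ N, p > 2} (p - 1) / (p - 2)`, the singular series,
where `C₂ = ∏_{p > 2} (1 - 1 / (p - 1) ^ 2)` is the twin prime constant.

Proof: project `R460/GH` (see the description in `Results/MP_bae66e_nt/AsymptoticEveryModulus`).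
-/

set_option autoImplicit false

namespace Pool.Agent.Results.MP_b454d1_nt.AsymptoticEveryModulus

open Finset
open Pool.Agent.H560R3.GB (sing)

open Classical in
/-- The number of the primes `p` with `u < p ≤ v` such that `N - p` is a prime different from `p`. -/
noncomputable def pairs (N : ℕ) (u v : ℝ) : ℕ :=
  ((range (N + 1)).filter (fun p : ℕ => p.Prime ∧ (N - p).Prime ∧ p ≠ N - p ∧ u < p ∧ (p : ℝ) ≤ v)).card

/-- (1) For every interval `(u, v]` with `√N ≤ u`, `v ≤ N` and `v - u ≥ N / (log N)^W` the number of primes `p`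
in it, such that `N - p` is a prime different from `p`, agrees with `sing N (v - u) / (log N)²` up to a relative
error of at most `ε`; (2) there are primes `p ≠ r` with `p + r = N` and `√N < p ≤ √N + N / (log N)^W`. -/
def Holds (ε : ℝ) (W N : ℕ) : Prop :=
  (∀ u v : ℝ, √(N : ℝ) ≤ u → v ≤ N → (N : ℝ) / Real.log N ^ W ≤ v - u →
    |(pairs N u v : ℝ) - sing N * (v - u) / Real.log N ^ 2| ≤ ε * (sing N * (v - u) / Real.log N ^ 2)) ∧
  ∃ p r : ℕ, p.Prime ∧ r.Prime ∧ p ≠ r ∧ p + r = N ∧ √(N : ℝ) < p ∧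
    (p : ℝ) ≤ √(N : ℝ) + (N : ℝ) / Real.log N ^ W

/-- The even integers `0 < N ≤ x` with `N ≡ a (mod q)` for which `Holds ε W N` is false. -/
def exceptional (ε : ℝ) (W : ℕ) (x : ℝ) (q : ℕ) (a : ℤ) : Set ℕ :=
  {N : ℕ | 0 < N ∧ (N : ℝ) ≤ x ∧ 2 ∣ N ∧ (N : ℤ) ≡ a [ZMOD q] ∧ ¬ Holds ε W N}

/-- For all `ε, ρ > 0`, `W ≥ 1`, `A` and `T` and all sufficiently large real `x`: for EVERY integer
`1 ≤ q ≤ x ^ (2 / 3 - ρ)` and every integer `a` with `gcd(a, q) ≤ (log x)^T`, all but at most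
`x / (q (log x)^A)` of the even integers `0 < N ≤ x`, `N ≡ a (mod q)`, have the property `Holds ε W N`. -/
theorem result (ε ρ : ℝ) (hε : 0 < ε) (hρ : 0 < ρ) (W : ℕ) (hW : 1 ≤ W) (A T : ℕ) :
    ∃ x₀ : ℝ, ∀ x : ℝ, x₀ ≤ x → ∀ q : ℕ, 1 ≤ q → (q : ℝ) ≤ x ^ (2 / 3 - ρ) →
      ∀ a : ℤ, (Int.gcd a q : ℝ) ≤ Real.log x ^ T →
        (exceptional ε W x q a).Finite ∧ ((exceptional ε W x q a).ncard : ℝ) ≤ x / (q * Real.log x ^ A) :=
  Pool.Agent.R460.GH.class_asymp (Holds ε W) (min ε (1 / 2) / 2) (by positivity) (W + 1)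
    (Pool.Agent.R460.GH.distHolds_of ε hε W hW) ρ hρ A T

end Pool.Agent.Results.MP_b454d1_nt.AsymptoticEveryModulus
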