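import Pool.Agent.R502.WD.Fin2

/-!
# Short windows above `√N` without Goldbach primes

Rivera's conjecture asks for a prime `p` with `√N < p < 4 √N` and `N - p` prime, for every even
`N > 4`. The expected number of such `p` in a window `(√N + u, √N + u + λ (log N) ^ 2]` is a
constant multiple of `λ` (and of the singular series of `N`). We show that windows of this length do
not suffice, however large `λ` is: for almost all `N` a positive proportion of the windows

`(√N + i λ (log N) ^ 2, √N + (i + 1) λ (log N) ^ 2]`, `i = 0, …, K - 1`,

contains no prime `p` for which `N - p` is prime, as soon as `K` is large in terms of `λ` and `ε`.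

Proof (`Pool/Agent/R502/WD`). For `N` in an interval of length `√X` the primes in the windows are
fixed sets, which have `≪ λ log X` elements on average. Selberg type weights are assigned to such
sets of positions; the first moments of the weights over the `N` with no prime `N - p` and their
pair correlations are evaluated with the level of distribution of the integers (adapted from the
modules `Pool/Agent/R526/AA` on intervals to arbitrary sets of `≪ log X` positions up to
`(log X) ^ A`, averaged over the residue classes modulo small primes).
-/

set_option autoImplicit false

open Finset Filter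

namespace Pool.Agent.Results.MP_b454d1_nt.FreeWindows

/-- No prime `p` in the window number `i` above `√N` is such that `N - p` is prime. -/
def Free (lam : ℝ) (N i : ℕ) : Prop := ∀ p q : ℕ, p.Prime → q.Prime → N = p + q →
  ¬ (Real.sqrt N + i * (lam * Real.log N ^ 2) < p ∧
    (p : ℝ) ≤ Real.sqrt N + (i + 1) * (lam * Real.log N ^ 2))

open Classical in
/-- **Free windows for almost all `N`.** -/
theorem result (lam ε : ℝ) (hlam : 0 < lam) (hε : 0 < ε) : ∃ c : ℝ, 0 < c ∧ ∃ K₀ : ℕ,
    ∀ K : ℕ, K₀ ≤ K → ∃ X₀ : ℕ, ∀ X : ℕ, X₀ ≤ X →
    (((Ico X (2 * X)).filter (fun N : ℕ =>
      (((range K).filter (fun i => Free lam N i)).card : ℝ) < c * K)).card : ℝ) ≤ ε * X :=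
  Pool.Agent.R502.WD.windows_almost lam ε hlam hε

end Pool.Agent.Results.MP_b454d1_nt.FreeWindows
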