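import Pool.Agent.R498.MP.Gold

set_option autoImplicit false

/-!
# Strings of consecutive primes between `√N` and `4 √N` complementary to almost primes
-/

namespace Pool.Agent.Results.MP_b454d1_nt.PrimeStrings

open Filter

/-- `n` has at most `r` prime factors, counted with multiplicity, all of them at least `w`. -/
def AlmostPrime (r : ℕ) (w : ℝ) (n : ℕ) : Prop :=
  n.primeFactorsList.length ≤ r ∧ ∀ q : ℕ, q.Prime → q ∣ n → w ≤ q

/-- The primes in the interval `[x, x + C]` are exactly the numbers `x + s`, `s ∈ H`. -/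
def PrimePattern (C : ℕ) (H : Finset ℕ) (x : ℕ) : Prop := ∀ y ≤ C, (x + y).Prime ↔ y ∈ H

/-- **Every large even `N` is `p` plus an almost prime, for strings of consecutive primes `p` in
`(√N, 4 √N)`.** Let `q` be squarefree. For every `m` there are `K`, `B`, `r` and `δ > 0` such that, for every
finite set `S` of at least `K` nonnegative integers, the following holds for all large even `N`, all `X`
with `√N ≤ X < 2 √N` and all `c` for which `c (N - c)` is coprime to `q` (for instance `q = 1`). There are a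
subset `H` of `S` with at least `m` elements and at least `X / (log X) ^ B` numbers `x` with
`X < x ≤ x + max S ≤ 2 X` (so that `√N < x` and `x + max S < 4 √N`) such that the primes in
`[x, x + max S]` are exactly the numbers `x + s`, `s ∈ H`, all these primes `p` are `≡ c` modulo `q`, and
all `N - p` have at most `r` prime factors, all of them at least `X ^ δ`. -/
theorem result (q : ℕ) (hq : Squarefree q) (m : ℕ) : ∃ (K B r : ℕ) (δ : ℝ), 0 < δ ∧
    ∀ S : Finset ℕ, K ≤ S.card → ∀ᶠ N : ℕ in atTop, Even N → ∀ X : ℕ, Real.sqrt N ≤ X →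
      (X : ℝ) < 2 * Real.sqrt N → ∀ c : ℕ, IsCoprime ((c : ℤ) * (N - c)) (q : ℤ) →
      ∃ H ⊆ S, m ≤ H.card ∧ ∃ T : Finset ℕ, (X : ℝ) ≤ Real.log X ^ B * T.card ∧
        ∀ x ∈ T, X < x ∧ x + S.sup id ≤ 2 * X ∧ PrimePattern (S.sup id) H x ∧
          ∀ s ∈ H, x + s ≡ c [MOD q] ∧ AlmostPrime r ((X : ℝ) ^ δ) (N - (x + s)) := by
  obtain ⟨K, B, δ, hδ, hmain⟩ := Pool.Agent.R498.MP.gold_stringsM q hq m
  obtain ⟨r, hr⟩ := hmain 2
  refine ⟨K, B, r, δ, hδ, fun S hS => ?_⟩
  filter_upwards [hr S hS, eventually_ge_atTop 16] with N hN h16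
  intro hE X h1 h2 c hc
  have hs0 : 0 ≤ Real.sqrt N := Real.sqrt_nonneg _
  have hss : Real.sqrt N * Real.sqrt N = N := Real.mul_self_sqrt (Nat.cast_nonneg _)
  have h4 : (4 : ℝ) ≤ Real.sqrt N := by
    apply Real.le_sqrt_of_sq_le
    norm_num
    exact h16
  have h3 : N ≤ X ^ 2 := by
    have : (N : ℝ) ≤ (X : ℝ) ^ 2 := by
      rw [← hss, sq]
      exact mul_le_mul h1 h1 hs0 (Nat.cast_nonneg _)
    exact_mod_cast this
  have h5 : 2 * X < N := by
    have : (2 : ℝ) * X < N := by nlinarith
    exact_mod_cast this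
  exact hN X h3 hE h5 c hc

end Pool.Agent.Results.MP_b454d1_nt.PrimeStrings
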