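import Pool.Agent.Results.MP_b454d1_nt.RiveraWindows
import Pool.Agent.R482.ST.Star

/-!
# A prime between `√N` and `4 √N` plus an almost prime, for all even numbers near powers, orbits and other sequences

Let `f_n`, `n = 0, 1, 2, …`, be positive functions on `(a, ∞)`, `a ≥ 0`, such that `f_n(t) / t` is nondecreasing, and such
that the sequence `f_n(t)` has exponent of convergence at most `τ` for each `t > a`: for instance `f_n(t) = t ^ (v_n)` for
exponents `v_n ≥ 1` (`τ = 0`; all powers, the powers `t ^ (3 ^ n)` of Mills, …), the orbits `f_n(t) = g (g (⋯ g (t)))` of any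
map `g` with `g(t) > t` and `g(t) / t` nondecreasing (`τ = 0`; for instance of `t² + c`), and `f_n(t) = v_n t`.
Let `r = 3`, `1 / 2 ≤ u < 1` or `r = 2`, `6 / 11 ≤ u < 1`, `s > 2 u - 1 / 2` and `θ < 1`. For all `α > a` outside a set of
Hausdorff dimension at most `(s + τ) / (1 - θ)`, each `c` and all but finitely many `n`, ALL even `N` with
`|N - f_n(α)| ≤ c f_n(α) ^ θ` have at least `δ 𝔖(N) √N / (log N) ^ 2` primes `p` with `√N < p < 4 √N` such that `N - p` has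
at most `r` prime factors, none of them small.
-/

set_option autoImplicit false

open Finset

namespace Pool.Agent.Results.MP_b454d1_nt.StarshapedRivera

/-- the variable part of the singular series of the Goldbach problem -/
noncomputable def sing (N : ℕ) : ℝ :=
  ∏ p ∈ N.primeFactors.erase 2, (((p : ℝ) - 1) / ((p : ℝ) - 2))

open Classical in
/-- The number of the primes `p < N` with `√N < p < 4 √N` such that `N - p` has at most `r` prime
factors (counted with multiplicity), all of them at least `w`. -/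
noncomputable def inSqrt (r : ℕ) (w : ℝ) (N : ℕ) : ℕ :=
  ((range N).filter (fun p : ℕ => p.Prime ∧ √(N : ℝ) < p ∧ (p : ℝ) < 4 * √(N : ℝ) ∧
    (N - p).primeFactorsList.length ≤ r ∧
    ∀ q : ℕ, q.Prime → q ∣ (N - p) → w ≤ q)).card

/-- the functions `f n` are positive on `(a, ∞)`, `a ≥ 0`, and `f n x / x` is nondecreasing there -/
def Starshaped (a : ℝ) (f : ℕ → ℝ → ℝ) : Prop :=
  0 ≤ a ∧ ∀ n : ℕ, ∀ x y : ℝ, a < x → x ≤ y → 0 < f n x ∧ f n x / x ≤ f n y / y

/-- for each `x > a` the exponent of convergence of the sequence `f n x` is at most `τ` -/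
def ExpLe (a : ℝ) (f : ℕ → ℝ → ℝ) (τ : ℝ) : Prop :=
  ∀ x : ℝ, a < x → ∀ t : ℝ, τ < t → Summable (fun n : ℕ => (f n x) ^ (-t))

/-- **Theorem.** Let `r = 3`, `1 / 2 ≤ u < 1`, `ζ = 2 u / 5`, or `r = 2`, `6 / 11 ≤ u < 1`, `ζ = u / 4`, and
`s > 2 u - 1 / 2`. There is `δ > 0` such that for all starshaped functions `f` on `(a, ∞)` of exponent of convergence at
most `τ ≥ 0` and `θ < 1` there is a set `E` of Hausdorff dimension at most `(s + τ) / (1 - θ)` such that for each `α > a`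
outside `E`, each `c` and all but finitely many `n`, ALL even `N` with `|N - f_n(α)| ≤ c f_n(α) ^ θ` have at least
`δ 𝔖(N) √N / (log N) ^ 2` primes `p` with `√N < p < 4 √N` such that `N - p` has at most `r` prime factors, all of them at
least `N ^ ζ / 2`. The functions `v_n x`, `v_n > 0`, are starshaped on `(0, ∞)`, of exponent `τ` if `v` has exponent of convergence at most
`τ`; the functions `x ^ (v_n)`, `v_n ≥ 1`, are starshaped on `(1, ∞)`, of exponent `0` if the sums of `exp (-t v_n)` converge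
for `t > 0`; and the iterates of a map `g` with `g(x) > x` for `x > a` and `g(x) / x` nondecreasing are starshaped on
`(a, ∞)`, of exponent `0`. -/
theorem result :
    (∀ (r : ℕ) (u ζ s : ℝ),
      ((r = 3 ∧ 1 / 2 ≤ u ∧ ζ = 2 / 5 * u) ∨ (r = 2 ∧ 6 / 11 ≤ u ∧ ζ = u / 4)) → u < 1 →
      2 * u - 1 / 2 < s → ∃ δ : ℝ, 0 < δ ∧
      ∀ (a : ℝ) (f : ℕ → ℝ → ℝ) (τ θ : ℝ), Starshaped a f → 0 ≤ τ → ExpLe a f τ → θ < 1 →
      ∃ E : Set ℝ, dimH E ≤ ENNReal.ofReal ((s + τ) / (1 - θ)) ∧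
        ∀ α : ℝ, a < α → α ∉ E → ∀ c : ℝ, ∃ n₀ : ℕ, ∀ n : ℕ, n₀ ≤ n → ∀ N : ℕ, Even N →
          |(N : ℝ) - f n α| ≤ c * (f n α) ^ θ →
          δ * sing N * (√(N : ℝ) / Real.log N ^ 2) ≤ (inSqrt r ((N : ℝ) ^ ζ / 2) N : ℝ)) ∧
    (∀ (v : ℕ → ℝ) (τ : ℝ), (∀ n, 0 < v n) → (∀ t : ℝ, τ < t → Summable (fun n : ℕ => (v n) ^ (-t))) →
      Starshaped 0 (fun n x => v n * x) ∧ ExpLe 0 (fun n x => v n * x) τ) ∧
    (∀ v : ℕ → ℝ, (∀ n, 1 ≤ v n) → (∀ t : ℝ, 0 < t → Summable fun n : ℕ => Real.exp (-(t * v n))) →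
      Starshaped 1 (fun n x => x ^ (v n)) ∧ ExpLe 1 (fun n x => x ^ (v n)) 0) ∧
    (∀ (a : ℝ) (g : ℝ → ℝ), 0 ≤ a → (∀ x y : ℝ, a < x → x ≤ y → g x / x ≤ g y / y) → (∀ x : ℝ, a < x → x < g x) →
      Starshaped a (fun n x => g^[n] x) ∧ ExpLe a (fun n x => g^[n] x) 0) := by
  refine ⟨fun r u ζ s hpar hu hs => ?_, Pool.Agent.R482.ST.ex_mul, Pool.Agent.R482.ST.ex_pow,
    Pool.Agent.R482.ST.ex_orbit⟩
  obtain ⟨δ, hδ, hcount⟩ := RiveraWindows.count r u ζ s hpar hu hs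
  refine ⟨δ, hδ, fun a f τ θ hf hτ hE hθ1 => ?_⟩
  have hs0 : 0 ≤ s := by
    rcases hpar with ⟨-, h, -⟩ | ⟨-, h, -⟩
    · linarith
    · linarith
  obtain ⟨E, h2, h3⟩ := Pool.Agent.R482.ST.win_nat (RiveraWindows.Exc r ζ δ) hf hτ hE (s := s) hs0 hθ1 hcount
  refine ⟨E, h2, fun α hα hαE c => ?_⟩
  obtain ⟨n₀, hn⟩ := h3 α hα hαE c
  refine ⟨n₀, fun n hn1 N hN hw => ?_⟩
  by_contra hcon
  push Not at hcon
  exact (hn n hn1 N hw).2 ⟨hN, hcon⟩

end Pool.Agent.Results.MP_b454d1_nt.StarshapedRivera
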